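import Pool.Agent.X183.ZM.Rep

/-!
# Units of the Gaussian and the Lipschitz integers
-/

set_option autoImplicit false

open Module
open scoped Quaternion

namespace Pool.Agent.X183.ZM

theorem sq_le_one {x s : ℤ} (h : x * x + s = 1) (hs : 0 ≤ s) : x ∈ Set.Icc (-1 : ℤ) 1 := by
  constructor <;> nlinarith

theorem zero_or {x s : ℤ} (h : x * x + s = 1) (hs : 0 ≤ s) : x = 0 ∨ (s = 0 ∧ x * x = 1) := by
  obtain ⟨h1, h2⟩ := sq_le_one h hs
  have : x = -1 ∨ x = 0 ∨ x = 1 := by omega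
  rcases this with rfl | rfl | rfl
  · right; constructor <;> linarith
  · left; rfl
  · right; constructor <;> linarith

theorem sq3 (a b c : ℤ) : 0 ≤ a * a + b * b + c * c := by
  nlinarith [mul_self_nonneg a, mul_self_nonneg b, mul_self_nonneg c]

theorem sq3_zero {a b c : ℤ} (h : a * a + b * b + c * c = 0) : a = 0 ∧ b = 0 ∧ c = 0 := by
  refine ⟨mul_self_eq_zero.1 ?_, mul_self_eq_zero.1 ?_, mul_self_eq_zero.1 ?_⟩ <;>
  nlinarith [mul_self_nonneg a, mul_self_nonneg b, mul_self_nonneg c]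

theorem gauss_norm (u : GaussianIntˣ) :
    (u : GaussianInt).re * (u : GaussianInt).re + (u : GaussianInt).im * (u : GaussianInt).im = 1 := by
  have h := (Zsqrtd.norm_eq_one_iff' (d := -1) (by norm_num) (u : GaussianInt)).2 u.isUnit
  rw [Zsqrtd.norm_def] at h
  linarith

theorem gauss_four (u : GaussianIntˣ) : u ^ 4 = 1 := by
  have h := gauss_norm u
  have h1 : (u : GaussianInt) * u = 1 ∨ (u : GaussianInt) * u = -1 := by
    rcases zero_or h (mul_self_nonneg _) with h0 | ⟨h0, h1⟩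
    · right
      apply Zsqrtd.ext
      · simp [h0] at h ⊢
        linarith
      · simp [h0]
    · left
      have h2 := mul_self_eq_zero.1 h0
      apply Zsqrtd.ext
      · simp [h2, h1]
      · simp [h2]
  apply Units.ext
  rw [Units.val_pow_eq_pow_val, show (u : GaussianInt) ^ 4 = (u * u) * (u * u) by ring]
  rcases h1 with h1 | h1 <;> rw [h1] <;> simp

instance : Finite GaussianIntˣ := by
  refine Finite.of_injective (β := Set.Icc (-1 : ℤ) 1 × Set.Icc (-1 : ℤ) 1)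
    (fun u => (⟨(u : GaussianInt).re, sq_le_one (gauss_norm u) (mul_self_nonneg _)⟩,
      ⟨(u : GaussianInt).im, sq_le_one (by rw [add_comm]; exact gauss_norm u)
        (mul_self_nonneg _)⟩)) ?_
  intro u v h
  simp only [Prod.mk.injEq, Subtype.mk.injEq] at h
  exact Units.ext (Zsqrtd.ext h.1 h.2)

theorem quat_norm (u : ℍ[ℤ]ˣ) :
    (u : ℍ[ℤ]).re * (u : ℍ[ℤ]).re + ((u : ℍ[ℤ]).imI * (u : ℍ[ℤ]).imI +
      (u : ℍ[ℤ]).imJ * (u : ℍ[ℤ]).imJ + (u : ℍ[ℤ]).imK * (u : ℍ[ℤ]).imK) = 1 := by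
  have h : Quaternion.normSq (u : ℍ[ℤ]) * Quaternion.normSq ((u⁻¹ : ℍ[ℤ]ˣ) : ℍ[ℤ]) = 1 := by
    rw [← map_mul, Units.mul_inv, map_one]
  have h1 : 0 ≤ Quaternion.normSq (u : ℍ[ℤ]) := by
    rw [Quaternion.normSq_def']; positivity
  have h2 : Quaternion.normSq (u : ℍ[ℤ]) = 1 := by
    rcases Int.eq_one_or_neg_one_of_mul_eq_one h with h3 | h3
    · exact h3
    · omega
  rw [Quaternion.normSq_def'] at h2
  linarith

theorem quat_four (u : ℍ[ℤ]ˣ) : u ^ 4 = 1 := by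
  have h := quat_norm u
  have h1 : (u : ℍ[ℤ]) * u = 1 ∨ (u : ℍ[ℤ]) * u = -1 := by
    rcases zero_or h (sq3 _ _ _) with h0 | ⟨h0, h1⟩
    · right
      apply Quaternion.ext
      · simp [h0] at h ⊢
        linarith
      · simp [h0]; ring
      · simp [h0]; ring
      · simp [h0]; ring
    · left
      obtain ⟨k1, k2, k3⟩ := sq3_zero h0
      apply Quaternion.ext
      · simp [k1, k2, k3, h1]
      · simp [k1, k2, k3]
      · simp [k1, k2, k3]
      · simp [k1, k2, k3]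
  apply Units.ext
  rw [Units.val_pow_eq_pow_val, show (u : ℍ[ℤ]) ^ 4 = (u * u) * (u * u) by
    rw [pow_succ, pow_succ, pow_two, mul_assoc, mul_assoc]]
  rcases h1 with h1 | h1 <;> rw [h1] <;> simp

instance : Finite ℍ[ℤ]ˣ := by
  have h2 : ∀ u : ℍ[ℤ]ˣ, (u : ℍ[ℤ]).imI ∈ Set.Icc (-1 : ℤ) 1 := fun u =>
    sq_le_one (s := (u : ℍ[ℤ]).re * (u : ℍ[ℤ]).re + (u : ℍ[ℤ]).imJ *
        (u : ℍ[ℤ]).imJ + (u : ℍ[ℤ]).imK * (u : ℍ[ℤ]).imK) (by linarith [quat_norm u]) (sq3 _ _ _)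
  have h3 : ∀ u : ℍ[ℤ]ˣ, (u : ℍ[ℤ]).imJ ∈ Set.Icc (-1 : ℤ) 1 := fun u =>
    sq_le_one (s := (u : ℍ[ℤ]).re * (u : ℍ[ℤ]).re + (u : ℍ[ℤ]).imI *
        (u : ℍ[ℤ]).imI + (u : ℍ[ℤ]).imK * (u : ℍ[ℤ]).imK) (by linarith [quat_norm u]) (sq3 _ _ _)
  have h4 : ∀ u : ℍ[ℤ]ˣ, (u : ℍ[ℤ]).imK ∈ Set.Icc (-1 : ℤ) 1 := fun u =>
    sq_le_one (s := (u : ℍ[ℤ]).re * (u : ℍ[ℤ]).re + (u : ℍ[ℤ]).imI *
        (u : ℍ[ℤ]).imI + (u : ℍ[ℤ]).imJ * (u : ℍ[ℤ]).imJ) (by linarith [quat_norm u]) (sq3 _ _ _)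
  refine Finite.of_injective (β := (Set.Icc (-1 : ℤ) 1 × Set.Icc (-1 : ℤ) 1) ×
      (Set.Icc (-1 : ℤ) 1 × Set.Icc (-1 : ℤ) 1))
    (fun u : ℍ[ℤ]ˣ => ((⟨(u : ℍ[ℤ]).re, sq_le_one (quat_norm u) (sq3 _ _ _)⟩,
      ⟨(u : ℍ[ℤ]).imI, h2 u⟩), (⟨(u : ℍ[ℤ]).imJ, h3 u⟩, ⟨(u : ℍ[ℤ]).imK, h4 u⟩))) ?_
  intro u v h
  simp only [Prod.mk.injEq, Subtype.mk.injEq] at h
  exact Units.ext (Quaternion.ext _ _ h.1.1 h.1.2 h.2.1 h.2.2)

/-- the unit `i` of the Gaussian integers -/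
def gI : GaussianIntˣ where
  val := ⟨0, 1⟩
  inv := ⟨0, -1⟩
  val_inv := by apply Zsqrtd.ext <;> simp
  inv_val := by apply Zsqrtd.ext <;> simp

theorem gI_sq : gI * gI = -1 := by
  apply Units.ext
  apply Zsqrtd.ext <;> simp [gI]

/-- the unit `i` of the Lipschitz integers -/
def qI : ℍ[ℤ]ˣ where
  val := ⟨0, 1, 0, 0⟩
  inv := ⟨0, -1, 0, 0⟩
  val_inv := Quaternion.ext _ _ rfl rfl rfl rfl
  inv_val := Quaternion.ext _ _ rfl rfl rfl rfl

/-- the unit `j` of the Lipschitz integers -/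
def qJ : ℍ[ℤ]ˣ where
  val := ⟨0, 0, 1, 0⟩
  inv := ⟨0, 0, -1, 0⟩
  val_inv := Quaternion.ext _ _ rfl rfl rfl rfl
  inv_val := Quaternion.ext _ _ rfl rfl rfl rfl

theorem qI_sq : qI * qI = -1 := Units.ext (Quaternion.ext _ _ rfl rfl rfl rfl)

theorem qJ_sq : qJ * qJ = -1 := Units.ext (Quaternion.ext _ _ rfl rfl rfl rfl)

theorem qJ_qI : qJ * qI = -1 * (qI * qJ) := Units.ext (Quaternion.ext _ _ rfl rfl rfl rfl)

theorem big_gauss : Big 2 GaussianInt := by
  intro V _ _ _ W ρ hinv hneg hW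
  obtain ⟨w, hw, hw0⟩ := Submodule.exists_mem_ne_zero_of_ne_bot hW
  have hII : ρ gI (ρ gI w) = -w := by
    rw [← Module.End.mul_apply, ← map_mul, gI_sq, hneg w hw]
  have hli : LinearIndependent ℝ ![(⟨w, hw⟩ : W), ⟨ρ gI w, hinv _ _ hw⟩] := by
    rw [Fintype.linearIndependent_iff]
    intro g hg
    have h1 := congrArg Subtype.val hg
    simp only [Fin.sum_univ_two, Matrix.cons_val_zero, Matrix.cons_val_one, Submodule.coe_add,
      Submodule.coe_smul, Submodule.coe_zero] at h1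
    set a := g 0 with ha
    set b := g 1 with hb
    have h2 : ρ gI (a • w + b • ρ gI w) = 0 := by rw [h1, map_zero]
    rw [map_add, map_smul, map_smul, hII] at h2
    have h3 : (a * a + b * b) • w = 0 := by
      have : (a * a + b * b) • w = a • (a • w + b • ρ gI w) - b • (a • ρ gI w + b • -w) := by module
      rw [this, h1, h2, smul_zero, smul_zero, sub_zero]
    have h4 := (smul_eq_zero.1 h3).resolve_right hw0
    have h5 : a = 0 := by nlinarith [mul_self_nonneg a, mul_self_nonneg b]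
    have h6 : b = 0 := by nlinarith [mul_self_nonneg a, mul_self_nonneg b]
    intro i
    fin_cases i
    · exact h5
    · exact h6
  have := hli.fintype_card_le_finrank
  simpa using this

theorem big_quat : Big 4 ℍ[ℤ] := by
  intro V _ _ _ W ρ hinv hneg hW
  obtain ⟨w, hw, hw0⟩ := Submodule.exists_mem_ne_zero_of_ne_bot hW
  have hII : ∀ w ∈ W, ρ qI (ρ qI w) = -w := by
    intro w hw
    rw [← Module.End.mul_apply, ← map_mul, qI_sq, hneg w hw]
  have hJJ : ∀ w ∈ W, ρ qJ (ρ qJ w) = -w := by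
    intro w hw
    rw [← Module.End.mul_apply, ← map_mul, qJ_sq, hneg w hw]
  have hJI : ∀ w ∈ W, ρ qJ (ρ qI w) = -ρ qI (ρ qJ w) := by
    intro w hw
    rw [← Module.End.mul_apply, ← map_mul, qJ_qI, map_mul, Module.End.mul_apply, map_mul,
      Module.End.mul_apply, hneg _ (hinv _ _ (hinv _ _ hw))]
  have hli : LinearIndependent ℝ ![(⟨w, hw⟩ : W), ⟨ρ qI w, hinv _ _ hw⟩, ⟨ρ qJ w, hinv _ _ hw⟩,
      ⟨ρ qI (ρ qJ w), hinv _ _ (hinv _ _ hw)⟩] := by
    rw [Fintype.linearIndependent_iff]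
    intro g hg
    have h1 := congrArg Subtype.val hg
    simp only [Fin.sum_univ_four, Matrix.cons_val_zero, Matrix.cons_val_one, Matrix.cons_val,
      Submodule.coe_add, Submodule.coe_smul, Submodule.coe_zero] at h1
    set a := g 0 with ha
    set b := g 1 with hb
    set c := g 2 with hc
    set d := g 3 with hd
    have e1 := hII w hw
    have e2 := hJJ w hw
    have e3 := hJI w hw
    have e4 := hII _ (hinv qJ w hw)
    have e5 : ρ qJ (ρ qI (ρ qJ w)) = ρ qI w := by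
      rw [hJI _ (hinv qJ w hw), e2, map_neg, neg_neg]
    have h2 : ρ qI (a • w + b • ρ qI w + c • ρ qJ w + d • ρ qI (ρ qJ w)) = 0 := by
      rw [h1, map_zero]
    have h3 : ρ qJ (a • w + b • ρ qI w + c • ρ qJ w + d • ρ qI (ρ qJ w)) = 0 := by
      rw [h1, map_zero]
    have h4 : ρ qI (ρ qJ (a • w + b • ρ qI w + c • ρ qJ w + d • ρ qI (ρ qJ w))) = 0 := by
      rw [h1, map_zero, map_zero]
    simp only [map_add, map_smul, map_neg, smul_neg, e1, e2, e3, e4, e5] at h2 h3 h4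
    have h5 : (a * a + b * b + c * c + d * d) • w = 0 := by
      have : (a * a + b * b + c * c + d * d) • w =
          a • (a • w + b • ρ qI w + c • ρ qJ w + d • ρ qI (ρ qJ w)) -
          b • (a • ρ qI w + -(b • w) + c • ρ qI (ρ qJ w) + -(d • ρ qJ w)) -
          c • (a • ρ qJ w + -(b • ρ qI (ρ qJ w)) + -(c • w) + d • ρ qI w) -
          d • (a • ρ qI (ρ qJ w) + b • ρ qJ w + -(c • ρ qI w) + -(d • w)) := by module
      rw [this, h1, h2, h3]
      have h4' : a • ρ qI (ρ qJ w) + b • ρ qJ w + -(c • ρ qI w) + -(d • w) = 0 := by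
        rw [← h4]; abel
      rw [h4']
      simp
    have h6 := (smul_eq_zero.1 h5).resolve_right hw0
    have k1 : a = 0 := by
      nlinarith [mul_self_nonneg a, mul_self_nonneg b, mul_self_nonneg c, mul_self_nonneg d]
    have k2 : b = 0 := by
      nlinarith [mul_self_nonneg a, mul_self_nonneg b, mul_self_nonneg c, mul_self_nonneg d]
    have k3 : c = 0 := by
      nlinarith [mul_self_nonneg a, mul_self_nonneg b, mul_self_nonneg c, mul_self_nonneg d]
    have k4 : d = 0 := by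
      nlinarith [mul_self_nonneg a, mul_self_nonneg b, mul_self_nonneg c, mul_self_nonneg d]
    intro i
    fin_cases i
    · exact k1
    · exact k2
    · exact k3
    · exact k4
  have := hli.fintype_card_le_finrank
  simpa using this

end Pool.Agent.X183.ZM
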