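import Mathlib

/-!
# Zimmer's conjecture for lattices over Gaussian and Lipschitz integers: definitions
-/

set_option autoImplicit false

namespace Pool.Agent.X183.ZM

/-- The elementary matrix `1 + x E_ij`, `i ≠ j`. -/
def El {n : ℕ} {R : Type} [Ring R] (i j : Fin n) (h : i ≠ j) (x : R) :
    (Matrix (Fin n) (Fin n) R)ˣ where
  val := 1 + Matrix.single i j x
  inv := 1 + Matrix.single i j (-x)
  val_inv := by
    rw [mul_add, add_mul, add_mul, Matrix.single_mul_single_of_ne (h := h.symm), mul_one, mul_one,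
      one_mul, add_zero, add_assoc, ← Matrix.single_add, add_neg_cancel, Matrix.single_zero,
      add_zero]
  inv_val := by
    rw [mul_add, add_mul, add_mul, Matrix.single_mul_single_of_ne (h := h.symm), mul_one, mul_one,
      one_mul, add_zero, add_assoc, ← Matrix.single_add, neg_add_cancel, Matrix.single_zero,
      add_zero]

/-- The diagonal matrix with the unit entries `u i`. -/
def Dg {n : ℕ} {R : Type} [Ring R] (u : Fin n → Rˣ) : (Matrix (Fin n) (Fin n) R)ˣ where
  val := Matrix.diagonal fun i => (u i : R)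
  inv := Matrix.diagonal fun i => ((u i)⁻¹ : Rˣ)
  val_inv := by simp
  inv_val := by simp

/-- The subgroup of `GL_n(R)` which is generated by the elementary matrices and the diagonal
matrices with unit entries. -/
def GE (n : ℕ) (R : Type) [Ring R] : Subgroup (Matrix (Fin n) (Fin n) R)ˣ :=
  Subgroup.closure ({g | ∃ i j, ∃ h : i ≠ j, ∃ x : R, g = El i j h x} ∪ {g | ∃ u, g = Dg u})

/-- Every finite `2`-subgroup of the group `D` of bijections of `M` has a common fixed point. -/
def TwoFixed {M : Type} (D : Subgroup (Equiv.Perm M)) : Prop :=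
  ∀ Q : Subgroup (Equiv.Perm M), Q ≤ D → Finite Q → IsPGroup 2 Q → ∃ x, ∀ g ∈ Q, g x = x

open scoped Manifold ContDiff

/-- `x` is a critical point of `f`. -/
def Crit (d : ℕ) {M : Type} [TopologicalSpace M] [ChartedSpace (EuclideanSpace ℝ (Fin d)) M]
    (f : M → ℝ) (x : M) : Prop := mfderiv (𝓡 d) 𝓘(ℝ, ℝ) f x = 0

/-- `f` is a Morse function: it is `C^∞` and at every critical point its second derivative is
nondegenerate (in all charts). -/
def Morse (d : ℕ) {M : Type} [TopologicalSpace M] [ChartedSpace (EuclideanSpace ℝ (Fin d)) M]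
    (f : M → ℝ) : Prop :=
  ContMDiff (𝓡 d) 𝓘(ℝ, ℝ) ∞ f ∧ ∀ x, Crit d f x →
    ∀ χ ∈ IsManifold.maximalAtlas (𝓡 d) ∞ M, x ∈ χ.source → ∀ v : EuclideanSpace ℝ (Fin d),
      fderiv ℝ (fderiv ℝ fun w => f (χ.symm w)) (χ x) v = 0 → v = 0

/-- Every Morse function on `M` has an odd number of critical points. For a closed manifold this
means that the Euler characteristic is odd. -/
def OddEuler (d : ℕ) (M : Type) [TopologicalSpace M] [ChartedSpace (EuclideanSpace ℝ (Fin d)) M] :
    Prop := ∀ f : M → ℝ, Morse d f → Odd {x : M | Crit d f x}.ncard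

/-- The action `α` is `C^1` and every finite `2`-subgroup of `α(Γ)` has a fixed point, or `α` is
`C^∞` and `M` is a closed manifold on which every Morse function has an odd number of critical
points. -/
def Admissible (d : ℕ) {Γ M : Type} [Group Γ] [TopologicalSpace M]
    [ChartedSpace (EuclideanSpace ℝ (Fin d)) M] (α : Γ →* Equiv.Perm M) : Prop :=
  ((∀ g, ContMDiff (𝓡 d) (𝓡 d) 1 (α g)) ∧ TwoFixed α.range) ∨
    ((∀ g, ContMDiff (𝓡 d) (𝓡 d) ∞ (α g)) ∧ CompactSpace M ∧ IsManifold (𝓡 d) ∞ M ∧ OddEuler d M)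

end Pool.Agent.X183.ZM
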