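import Pool.Agent.X183.ZM.Heis

/-!
# Representations of the group of diagonal matrices
-/

set_option autoImplicit false

open Module

namespace Pool.Agent.X183.ZM

variable {n : ℕ} {R : Type} [Ring R]

/-- diagonal signs -/
def sg (S : Fin n → ZMod 2) : Fin n → Rˣ := fun a => if S a = 0 then 1 else -1

theorem sg_zero : sg (R := R) (0 : Fin n → ZMod 2) = 1 := by
  funext a
  simp [sg]

theorem z2_cases (x : ZMod 2) : x = 0 ∨ x = 1 := by
  revert x
  decide

theorem self_add (S : Fin n → ZMod 2) : S + S = 0 := by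
  funext a
  exact CharTwo.add_self_eq_zero _

theorem sg_add (S T : Fin n → ZMod 2) : sg (R := R) (S + T) = sg S * sg T := by
  funext a
  simp only [sg, Pi.add_apply, Pi.mul_apply]
  have h10 : (1 : ZMod 2) ≠ 0 := by decide
  have h11 : (1 : ZMod 2) + 1 = 0 := by decide
  rcases z2_cases (S a) with h | h <;> rcases z2_cases (T a) with h' | h'
  · rw [if_pos (show S a + T a = 0 by rw [h, h', add_zero]), if_pos h, if_pos h', one_mul]
  · rw [if_neg (show ¬ S a + T a = 0 by rw [h, h', zero_add]; exact h10), if_pos h,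
      if_neg (show ¬ T a = 0 by rw [h']; exact h10), one_mul]
  · rw [if_neg (show ¬ S a + T a = 0 by rw [h, h', add_zero]; exact h10), if_pos h',
      if_neg (show ¬ S a = 0 by rw [h]; exact h10), mul_one]
  · rw [if_pos (show S a + T a = 0 by rw [h, h', h11]), if_neg (show ¬ S a = 0 by rw [h]; exact h10),
      if_neg (show ¬ T a = 0 by rw [h']; exact h10), neg_mul_neg, one_mul]

theorem sg_central (S : Fin n → ZMod 2) (u : Fin n → Rˣ) : sg S * u = u * sg S := by
  funext a
  simp only [sg, Pi.mul_apply]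
  split_ifs
  · simp
  · apply Units.ext
    simp

theorem sg_sq (S : Fin n → ZMod 2) : sg (R := R) S * sg S = 1 := by
  rw [← sg_add, self_add, sg_zero]

/-- The smallest dimension of a real space on which the units act and `-1` acts by `-1`. -/
def Big (κ : ℕ) (R : Type) [Ring R] : Prop :=
  ∀ (V : Type) [AddCommGroup V] [Module ℝ V] [FiniteDimensional ℝ V] (W : Submodule ℝ V)
    (ρ : Rˣ →* Module.End ℝ V), (∀ u, ∀ w ∈ W, ρ u w ∈ W) → (∀ w ∈ W, ρ (-1) w = -w) → W ≠ ⊥ →
    κ ≤ finrank ℝ W

variable {V : Type} [AddCommGroup V] [Module ℝ V]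

/-- the sign patterns which act trivially on `W` -/
def TW (ρ : (Fin n → Rˣ) →* Module.End ℝ V) (W : Submodule ℝ V) :
    Submodule (ZMod 2) (Fin n → ZMod 2) where
  carrier := {S | ∀ w ∈ W, ρ (sg S) w = w}
  zero_mem' := by
    intro w _
    rw [sg_zero, map_one]
    rfl
  add_mem' := by
    intro S T hS hT w hw
    rw [sg_add, map_mul, Module.End.mul_apply, hT w hw, hS w hw]
  smul_mem' := by
    intro c S hS
    have h : ∀ c : ZMod 2, c = 0 ∨ c = 1 := by decide
    rcases h c with rfl | rfl
    · rw [zero_smul]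
      intro w _
      rw [sg_zero, map_one]
      rfl
    · rw [one_smul]
      exact hS

theorem mem_TW {ρ : (Fin n → Rˣ) →* Module.End ℝ V} {W : Submodule ℝ V} {S : Fin n → ZMod 2} :
    S ∈ TW ρ W ↔ ∀ w ∈ W, ρ (sg S) w = w := Iff.rfl

variable [FiniteDimensional ℝ V]

theorem codim_bound {κ : ℕ} (hκ : Big κ R) (ρ : (Fin n → Rˣ) →* Module.End ℝ V) :
    ∀ (k : ℕ) (W : Submodule ℝ V), finrank ℝ W ≤ k → (∀ u, ∀ w ∈ W, ρ u w ∈ W) →
      ∃ c : ℕ, n ≤ finrank (ZMod 2) (TW ρ W) + c ∧ κ * c ≤ finrank ℝ W := by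
  intro k
  induction k using Nat.strong_induction_on with
  | _ k ih =>
  intro W hWk hinv
  by_cases hcase : ∀ S : Fin n → ZMod 2, (∀ w ∈ W, ρ (sg S) w = w) ∨ (∀ w ∈ W, ρ (sg S) w = -w)
  · by_cases htop : TW ρ W = ⊤
    · refine ⟨0, ?_, by simp⟩
      rw [htop, finrank_top, Module.finrank_fin_fun]
      simp
    · -- a single sign acts as `-1`
      have hW : W ≠ ⊥ := by
        intro h
        apply htop
        rw [eq_top_iff]
        intro S _ w hw
        rw [h, Submodule.mem_bot] at hw
        rw [hw, map_zero]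
      obtain ⟨a, ha⟩ : ∃ a : Fin n, ∀ w ∈ W, ρ (sg (Pi.single a 1)) w = -w := by
        by_contra hcon
        push Not at hcon
        apply htop
        rw [eq_top_iff, ← (Pi.basisFun (ZMod 2) (Fin n)).span_eq, Submodule.span_le]
        rintro _ ⟨a, rfl⟩
        rw [Pi.basisFun_apply]
        rcases hcase (Pi.single a 1) with h | h
        · exact h
        · obtain ⟨w, hw, hne⟩ := hcon a
          exact absurd (h w hw) hne
      have hdim : κ ≤ finrank ℝ W := by
        refine hκ V W (ρ.comp (MonoidHom.mulSingle (fun _ : Fin n => Rˣ) a))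
          (fun u w hw => hinv _ w hw) ?_ hW
        intro w hw
        have e : MonoidHom.mulSingle (fun _ : Fin n => Rˣ) a (-1) = sg (Pi.single a 1) := by
          funext b
          rw [MonoidHom.mulSingle_apply]
          by_cases hb : b = a
          · subst hb
            simp [sg]
          · simp [sg, hb]
        rw [MonoidHom.comp_apply, e]
        exact ha w hw
      refine ⟨1, ?_, by omega⟩
      -- `TW` has codimension one
      obtain ⟨S0, hS0⟩ : ∃ S0, S0 ∉ TW ρ W := by
        by_contra hcon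
        push Not at hcon
        exact htop (eq_top_iff.2 fun S _ => hcon S)
      have h1 : (⊤ : Submodule (ZMod 2) (Fin n → ZMod 2)) ≤ TW ρ W ⊔ Submodule.span (ZMod 2) {S0} := by
        intro S _
        by_cases hS : S ∈ TW ρ W
        · exact Submodule.mem_sup_left hS
        · have h2 : ∀ {S}, S ∉ TW ρ W → ∀ w ∈ W, ρ (sg S) w = -w := by
            intro S hS
            rcases hcase S with h | h
            · exact absurd h hS
            · exact h
          have h3 : S + S0 ∈ TW ρ W := by
            intro w hw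
            rw [sg_add, map_mul, Module.End.mul_apply, h2 hS0 w hw, map_neg, h2 hS w hw, neg_neg]
          have h4 : S = (S + S0) + S0 := by
            rw [add_assoc, self_add, add_zero]
          rw [h4]
          exact Submodule.add_mem_sup h3 (Submodule.mem_span_singleton_self S0)
      have h2 := Submodule.finrank_mono h1
      have h3 := Submodule.finrank_add_le_finrank_add_finrank (TW ρ W)
        (Submodule.span (ZMod 2) {S0})
      have h4 : finrank (ZMod 2) (Submodule.span (ZMod 2) {S0}) ≤ 1 := by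
        have h5 := finrank_span_le_card (R := ZMod 2) ({S0} : Set (Fin n → ZMod 2))
        simpa using h5
      rw [finrank_top, Module.finrank_fin_fun] at h2
      omega
  · push Not at hcase
    obtain ⟨S, ⟨w1, hw1, hne1⟩, w2, hw2, hne2⟩ := hcase
    have hTT : ∀ w ∈ W, ρ (sg S) (ρ (sg S) w) = w := by
      intro w _
      rw [← Module.End.mul_apply, ← map_mul, sg_sq, map_one]
      rfl
    obtain ⟨P, N, hPW, hNW, hsup, hinf, hP, hN⟩ := split_inv W (ρ (sg S)) (hinv _) hTT
    have hfr : finrank ℝ P + finrank ℝ N = finrank ℝ W := by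
      have h1 := Submodule.finrank_sup_add_finrank_inf_eq P N
      rw [hsup, hinf, finrank_bot, add_zero] at h1
      exact h1.symm
    have hcm : ∀ u w, ρ (sg S) (ρ u w) = ρ u (ρ (sg S) w) := by
      intro u w
      rw [← Module.End.mul_apply, ← map_mul, sg_central, map_mul, Module.End.mul_apply]
    have hPi : ∀ u, ∀ w ∈ P, ρ u w ∈ P := by
      intro u w hw
      have k := (hP w).1 hw
      exact (hP _).2 ⟨hinv u w k.1, by rw [hcm, k.2]⟩
    have hNi : ∀ u, ∀ w ∈ N, ρ u w ∈ N := by
      intro u w hw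
      have k := (hN w).1 hw
      exact (hN _).2 ⟨hinv u w k.1, by rw [hcm, k.2, map_neg]⟩
    have hP0 : 0 < finrank ℝ P := by
      rw [Nat.pos_iff_ne_zero]
      intro h
      have h1 := Submodule.finrank_eq_zero.1 h
      rw [h1, bot_sup_eq] at hsup
      rw [← hsup] at hw2
      exact hne2 ((hN w2).1 hw2).2
    have hN0 : 0 < finrank ℝ N := by
      rw [Nat.pos_iff_ne_zero]
      intro h
      have h1 := Submodule.finrank_eq_zero.1 h
      rw [h1, sup_bot_eq] at hsup
      rw [← hsup] at hw1
      exact hne1 ((hP w1).1 hw1).2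
    obtain ⟨c1, h1, h1'⟩ := ih (finrank ℝ P) (by omega) P le_rfl hPi
    obtain ⟨c2, h2, h2'⟩ := ih (finrank ℝ N) (by omega) N le_rfl hNi
    refine ⟨c1 + c2, ?_, by rw [mul_add]; omega⟩
    have hle : TW ρ P ⊓ TW ρ N ≤ TW ρ W := by
      rintro T ⟨hT1, hT2⟩ w hw
      rw [← hsup] at hw
      obtain ⟨x, hx, y, hy, rfl⟩ := Submodule.mem_sup.1 hw
      rw [map_add, hT1 x hx, hT2 y hy]
    have h3 := Submodule.finrank_mono hle
    have h4 := Submodule.finrank_sup_add_finrank_inf_eq (TW ρ P) (TW ρ N)
    have h5 := Submodule.finrank_le (TW ρ P ⊔ TW ρ N)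
    rw [Module.finrank_fin_fun] at h5
    omega

/-- **A nonconstant sign pattern acts trivially.** -/
theorem exists_sign {κ : ℕ} (hκ : Big κ R) (ρ : (Fin n → Rˣ) →* Module.End ℝ V)
    (hd : finrank ℝ V < κ * (n - 1)) :
    ∃ S : Fin n → ZMod 2, (∃ a b, S a = 0 ∧ S b ≠ 0) ∧ ρ (sg S) = 1 := by
  obtain ⟨c, h1, h2⟩ := codim_bound hκ ρ (finrank ℝ V) ⊤ (by simp) (fun _ _ _ => Submodule.mem_top)
  rw [finrank_top] at h2
  have h3 : c < n - 1 := by
    by_contra h
    push Not at h
    have := Nat.mul_le_mul_left κ h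
    omega
  have h4 : ∃ S ∈ TW ρ ⊤, S ∉ Submodule.span (ZMod 2) {(1 : Fin n → ZMod 2)} := by
    by_contra hcon
    push Not at hcon
    have h5 := Submodule.finrank_mono (show TW ρ ⊤ ≤ Submodule.span (ZMod 2) {(1 : Fin n → ZMod 2)}
      from hcon)
    have h6 := finrank_span_le_card (R := ZMod 2) ({1} : Set (Fin n → ZMod 2))
    simp only [Set.toFinset_singleton, Finset.card_singleton] at h6
    omega
  obtain ⟨S, hS, hS1⟩ := h4
  refine ⟨S, ?_, LinearMap.ext fun w => hS w Submodule.mem_top⟩
  by_contra hcon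
  push Not at hcon
  apply hS1
  rw [Submodule.mem_span_singleton]
  by_cases h0 : ∃ a, S a = 0
  · obtain ⟨a, ha⟩ := h0
    refine ⟨0, ?_⟩
    funext b
    rw [zero_smul]
    exact (hcon a b ha).symm
  · push Not at h0
    refine ⟨1, ?_⟩
    funext b
    rw [one_smul]
    have h : ∀ x : ZMod 2, x ≠ 0 → 1 = x := by decide
    exact h _ (h0 b)

end Pool.Agent.X183.ZM
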