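import Pool.Agent.X183.ZM.Defs

/-!
# Relations between elementary matrices
-/

set_option autoImplicit false

namespace Pool.Agent.X183.ZM

variable {n : ℕ} {R : Type} [Ring R]

theorem El_val {i j : Fin n} (h : i ≠ j) (x : R) :
    (El i j h x : Matrix (Fin n) (Fin n) R) = 1 + Matrix.single i j x := rfl

theorem El_zero {i j : Fin n} (h : i ≠ j) : El i j h (0 : R) = 1 := by
  apply Units.ext
  rw [El_val]
  simp

theorem El_add {i j : Fin n} (h : i ≠ j) (x y : R) : El i j h (x + y) = El i j h x * El i j h y := by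
  apply Units.ext
  rw [Units.val_mul, El_val, El_val, El_val, mul_add, add_mul, add_mul,
    Matrix.single_mul_single_of_ne (h := h.symm), mul_one, mul_one, one_mul, add_zero, add_assoc,
    Matrix.single_add]

theorem El_comm {i j k l : Fin n} (h : i ≠ j) (h' : k ≠ l) (h1 : j ≠ k) (h2 : l ≠ i) (x y : R) :
    El i j h x * El k l h' y = El k l h' y * El i j h x := by
  apply Units.ext
  rw [Units.val_mul, Units.val_mul, El_val, El_val, mul_add, add_mul, add_mul, mul_add, add_mul,
    add_mul, Matrix.single_mul_single_of_ne (h := h1), Matrix.single_mul_single_of_ne (h := h2)]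
  simp only [mul_one, one_mul, add_zero]
  abel

theorem El_comm3 {i j k : Fin n} (h : i ≠ j) (h' : j ≠ k) (h'' : i ≠ k) (x y : R) :
    El i j h x * El j k h' y = El i k h'' (x * y) * (El j k h' y * El i j h x) := by
  apply Units.ext
  simp only [Units.val_mul, El_val, mul_add, add_mul, mul_one, one_mul,
    Matrix.single_mul_single_same, Matrix.single_mul_single_of_ne _ _ _ _ h''.symm,
    Matrix.single_mul_single_of_ne _ _ _ _ h'.symm, Matrix.single_mul_single_of_ne _ _ _ _ h.symm,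
    add_zero, zero_mul, mul_zero]
  abel

theorem Dg_El (u : Fin n → Rˣ) {i j : Fin n} (h : i ≠ j) (x : R) :
    Dg u * El i j h x = El i j h (u i * x * ((u j)⁻¹ : Rˣ)) * Dg u := by
  apply Units.ext
  rw [Units.val_mul, Units.val_mul, El_val, El_val]
  show Matrix.diagonal (fun i => (u i : R)) * _ = _ * Matrix.diagonal (fun i => (u i : R))
  rw [mul_add, add_mul, mul_one, one_mul]
  congr 1
  ext a b
  rw [Matrix.diagonal_mul, Matrix.mul_diagonal]
  simp only [Matrix.single_apply]
  split_ifs with h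
  · rw [h.1, h.2]
    simp
  · simp

theorem Dg_mul (u v : Fin n → Rˣ) : Dg (u * v) = Dg u * Dg v := by
  apply Units.ext
  rw [Units.val_mul]
  show Matrix.diagonal (fun i => ((u * v) i : R)) = Matrix.diagonal (fun i => (u i : R)) *
    Matrix.diagonal (fun i => (v i : R))
  simp

/-- the diagonal matrices as a homomorphism -/
def DgHom (n : ℕ) (R : Type) [Ring R] : (Fin n → Rˣ) →* (Matrix (Fin n) (Fin n) R)ˣ where
  toFun := Dg
  map_one' := by
    apply Units.ext
    show Matrix.diagonal (fun i => ((1 : Fin n → Rˣ) i : R)) = 1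
    simp
  map_mul' := Dg_mul

variable {G : Type*} [Group G]

/-- A group with even elementary matrices in the kernel of a homomorphism, from one pair of
indices. -/
theorem even_all {Γ : Subgroup (Matrix (Fin n) (Fin n) R)ˣ}
    (hE : ∀ i j (h : i ≠ j) (x : R), El i j h x ∈ Γ) (α : Γ →* G) (hn : 3 ≤ n) {i j : Fin n}
    (hij : i ≠ j) (h : ∀ x, α ⟨El i j hij (2 * x), hE _ _ _ _⟩ = 1) (k l : Fin n) (hkl : k ≠ l)
    (x : R) : α ⟨El k l hkl (2 * x), hE _ _ _ _⟩ = 1 := by
  -- change the column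
  have h1 : ∀ {a b : Fin n} (hab : a ≠ b), (∀ x, α ⟨El a b hab (2 * x), hE _ _ _ _⟩ = 1) →
      ∀ {c : Fin n} (hac : a ≠ c), b ≠ c → ∀ x, α ⟨El a c hac (2 * x), hE _ _ _ _⟩ = 1 := by
    intro a b hab hh c hac hbc x
    have e := El_comm3 hab hbc hac (2 * x) (1 : R)
    rw [mul_one] at e
    have e2 : (⟨El a b hab (2 * x), hE _ _ _ _⟩ : Γ) * ⟨El b c hbc 1, hE _ _ _ _⟩ =
        ⟨El a c hac (2 * x), hE _ _ _ _⟩ * (⟨El b c hbc 1, hE _ _ _ _⟩ *
          ⟨El a b hab (2 * x), hE _ _ _ _⟩) := Subtype.ext e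
    have e3 := congrArg α e2
    simp only [map_mul, hh x, one_mul, mul_one] at e3
    exact (mul_eq_right.1 e3.symm)
  have h2 : ∀ {a b : Fin n} (hab : a ≠ b), (∀ x, α ⟨El a b hab (2 * x), hE _ _ _ _⟩ = 1) →
      ∀ {c : Fin n} (hcb : c ≠ b), c ≠ a → ∀ x, α ⟨El c b hcb (2 * x), hE _ _ _ _⟩ = 1 := by
    intro a b hab hh c hcb hca x
    have e := El_comm3 hca hab hcb (1 : R) (2 * x)
    rw [one_mul] at e
    have e2 : (⟨El c a hca 1, hE _ _ _ _⟩ : Γ) * ⟨El a b hab (2 * x), hE _ _ _ _⟩ =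
        ⟨El c b hcb (2 * x), hE _ _ _ _⟩ * (⟨El a b hab (2 * x), hE _ _ _ _⟩ *
          ⟨El c a hca 1, hE _ _ _ _⟩) := Subtype.ext e
    have e3 := congrArg α e2
    simp only [map_mul, hh x, one_mul, mul_one] at e3
    exact (mul_eq_right.1 e3.symm)
  -- change the row, general
  have row : ∀ {a b : Fin n} (hab : a ≠ b), (∀ x, α ⟨El a b hab (2 * x), hE _ _ _ _⟩ = 1) →
      ∀ {c : Fin n} (hac : a ≠ c), ∀ x, α ⟨El a c hac (2 * x), hE _ _ _ _⟩ = 1 := by
    intro a b hab hh c hac
    rcases eq_or_ne b c with rfl | hbc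
    · exact hh
    · exact h1 hab hh hac hbc
  have col : ∀ {a b : Fin n} (hab : a ≠ b), (∀ x, α ⟨El a b hab (2 * x), hE _ _ _ _⟩ = 1) →
      ∀ {c : Fin n} (hcb : c ≠ b), ∀ x, α ⟨El c b hcb (2 * x), hE _ _ _ _⟩ = 1 := by
    intro a b hab hh c hcb
    rcases eq_or_ne c a with rfl | hca
    · exact hh
    · exact h2 hab hh hcb hca
  -- choose a third index different from `i` and `k`
  obtain ⟨m, hmi, hmk⟩ : ∃ m : Fin n, m ≠ i ∧ m ≠ k := by
    by_contra hcon
    push Not at hcon
    have h3 : (Finset.univ : Finset (Fin n)) ⊆ {i, k} := by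
      intro m _
      by_cases hm : m = i
      · simp [hm]
      · simp [hcon m hm]
    have h4 := Finset.card_le_card h3
    rw [Finset.card_univ, Fintype.card_fin] at h4
    have h5 := Finset.card_le_two (a := i) (b := k)
    omega
  exact row (hmk.symm) (col hmi.symm (row hij h hmi.symm) hmk.symm) hkl x

end Pool.Agent.X183.ZM
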