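import Pool.Agent.X183.ZM.Main
import Pool.Agent.X183.IM.Odd

/-!
# Final theorem
-/

set_option autoImplicit false

open scoped Manifold ContDiff Topology
open Module

namespace Pool.Agent.X183.ZM

open Pool.Agent.X183.IM

theorem adm_twoFixed {d : ℕ} {Γ M : Type} [Group Γ] [TopologicalSpace M] [T2Space M]
    [ChartedSpace (EuclideanSpace ℝ (Fin d)) M] {α : Γ →* Equiv.Perm M} (h : Admissible d α) :
    (∀ g, ContMDiff (𝓡 d) (𝓡 d) 1 (α g)) ∧ TwoFixed α.range := by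
  rcases h with h | ⟨h1, h2, h3, h4⟩
  · exact h
  · refine ⟨fun g => (h1 g).of_le (by simp), ?_⟩
    refine twoFixed_of_odd (n := d) α.range ?_ ?_
    · rintro _ ⟨g, rfl⟩
      exact h1 g
    · intro q hq1 hq2
      exact h4 q ⟨hq1, hq2⟩

/-- **Final theorem.** -/
theorem final_ring {n : ℕ} {R : Type} [Ring R] [Finite Rˣ] (h4 : ∀ u : Rˣ, u ^ 4 = 1) {κ : ℕ}
    (hκ : Big κ R) (hn : 3 ≤ n) {d : ℕ} (hd : d < κ * (n - 1)) (hd2 : d < 2 ^ (n - 2))
    {Γ : Subgroup (Matrix (Fin n) (Fin n) R)ˣ} (hΓ : GE n R ≤ Γ) {M : Type} [TopologicalSpace M]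
    [T2Space M] [ConnectedSpace M] [ChartedSpace (EuclideanSpace ℝ (Fin d)) M]
    {α : Γ →* Equiv.Perm M} (hα : Admissible d α) :
    (∀ (i j : Fin n) (h : i ≠ j) (x : R) (hx : El i j h x ∈ Γ), α ⟨El i j h x, hx⟩ = 1) ∧
      ((GE n R).relIndex Γ ≠ 0 → (Set.range α).Finite) := by
  obtain ⟨h1, h2⟩ := adm_twoFixed hα
  exact main_ring h4 hκ hn hd hd2 hΓ α h1 h2

end Pool.Agent.X183.ZM
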