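import Mathlib

/-!
# Representations of groups of Heisenberg type; finiteness
-/

set_option autoImplicit false

open Module

namespace Pool.Agent.X183.ZM

section rep

variable {V : Type*} [AddCommGroup V] [Module ℝ V] [FiniteDimensional ℝ V]

/-- splitting of an invariant subspace by an involution -/
theorem split_inv (W : Submodule ℝ V) (T : V →ₗ[ℝ] V) (hT : ∀ w ∈ W, T w ∈ W)
    (hTT : ∀ w ∈ W, T (T w) = w) :
    ∃ P N : Submodule ℝ V, P ≤ W ∧ N ≤ W ∧ P ⊔ N = W ∧ P ⊓ N = ⊥ ∧
      (∀ w, w ∈ P ↔ w ∈ W ∧ T w = w) ∧ (∀ w, w ∈ N ↔ w ∈ W ∧ T w = -w) := by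
  refine ⟨W ⊓ LinearMap.ker (T - LinearMap.id), W ⊓ LinearMap.ker (T + LinearMap.id),
    inf_le_left, inf_le_left, ?_, ?_, ?_, ?_⟩
  · apply le_antisymm (sup_le inf_le_left inf_le_left)
    intro w hw
    have h1 : w = (1 / 2 : ℝ) • (w + T w) + (1 / 2 : ℝ) • (w - T w) := by
      rw [← smul_add, add_add_sub_cancel, ← two_smul ℝ w, smul_smul]
      norm_num
    rw [h1]
    refine Submodule.add_mem_sup ?_ ?_
    · refine Submodule.smul_mem _ _ ⟨W.add_mem hw (hT w hw), ?_⟩
      show T (w + T w) - (w + T w) = 0
      rw [map_add, hTT w hw]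
      abel
    · refine Submodule.smul_mem _ _ ⟨W.sub_mem hw (hT w hw), ?_⟩
      show T (w - T w) + (w - T w) = 0
      rw [map_sub, hTT w hw]
      abel
  · rw [eq_bot_iff]
    rintro w ⟨⟨_, h1⟩, ⟨_, h2⟩⟩
    have h1 : T w - w = 0 := h1
    have h2 : T w + w = 0 := h2
    have h3 : (2 : ℝ) • w = 0 := by
      rw [two_smul]
      have : w + w = (T w + w) - (T w - w) := by abel
      rw [this, h1, h2, sub_zero]
    exact (smul_eq_zero.1 h3).resolve_left (by norm_num)
  · intro w
    constructor
    · rintro ⟨h1, h2⟩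
      exact ⟨h1, sub_eq_zero.1 (show T w - w = 0 from h2)⟩
    · rintro ⟨h1, h2⟩
      refine ⟨h1, ?_⟩
      show T w - w = 0
      rw [h2, sub_self]
  · intro w
    constructor
    · rintro ⟨h1, h2⟩
      exact ⟨h1, eq_neg_of_add_eq_zero_left (show T w + w = 0 from h2)⟩
    · rintro ⟨h1, h2⟩
      refine ⟨h1, ?_⟩
      show T w + w = 0
      rw [h2, neg_add_cancel]

/-- **Dimension bound for Heisenberg groups.** -/
theorem heis_dim {ι : Type*} [DecidableEq ι] (X Y : ι → V →ₗ[ℝ] V) (C : Finset ι) :
    ∀ W : Submodule ℝ V, W ≠ ⊥ → (∀ c ∈ C, ∀ w ∈ W, X c w ∈ W) → (∀ c ∈ C, ∀ w ∈ W, Y c w ∈ W) →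
      (∀ c ∈ C, ∀ w ∈ W, X c (X c w) = w) → (∀ c ∈ C, ∀ w ∈ W, Y c (Y c w) = w) →
      (∀ c ∈ C, ∀ w ∈ W, X c (Y c w) = -Y c (X c w)) →
      (∀ c ∈ C, ∀ c' ∈ C, c ≠ c' → ∀ w ∈ W, X c (X c' w) = X c' (X c w) ∧
        X c (Y c' w) = Y c' (X c w)) →
      2 ^ C.card ≤ finrank ℝ W := by
  induction C using Finset.induction_on with
  | empty =>
    intro W hW _ _ _ _ _ _
    rw [Finset.card_empty, pow_zero]
    exact Nat.one_le_iff_ne_zero.2 (fun h => hW (Submodule.finrank_eq_zero.1 h))
  | insert c C hc ih =>
    intro W hW hX hY hXX hYY hXY hcomm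
    have hcm : c ∈ insert c C := Finset.mem_insert_self c C
    obtain ⟨P, N, hPW, hNW, hsup, hinf, hP, hN⟩ := split_inv W (X c) (hX c hcm) (hXX c hcm)
    have hYP : ∀ w ∈ P, Y c w ∈ N := by
      intro w hw
      have h1 := (hP w).1 hw
      refine (hN _).2 ⟨hY c hcm w h1.1, ?_⟩
      rw [hXY c hcm w h1.1, h1.2]
    have hYN : ∀ w ∈ N, Y c w ∈ P := by
      intro w hw
      have h1 := (hN w).1 hw
      refine (hP _).2 ⟨hY c hcm w h1.1, ?_⟩
      rw [hXY c hcm w h1.1, h1.2, map_neg, neg_neg]
    have hle1 : finrank ℝ P ≤ finrank ℝ N := by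
      let f : P →ₗ[ℝ] N := (Y c).restrict hYP
      refine LinearMap.finrank_le_finrank_of_injective (f := f) ?_
      intro a b hab
      have h1 : Y c a = Y c b := congrArg Subtype.val hab
      have h2 := congrArg (Y c) h1
      rw [hYY c hcm a (hPW a.2), hYY c hcm b (hPW b.2)] at h2
      exact Subtype.ext h2
    have hfr : finrank ℝ P + finrank ℝ N = finrank ℝ W := by
      have h1 := Submodule.finrank_sup_add_finrank_inf_eq P N
      rw [hsup, hinf, finrank_bot, add_zero] at h1
      exact h1.symm
    have hP0 : P ≠ ⊥ := by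
      intro h
      apply hW
      have h2 : N = ⊥ := by
        rw [eq_bot_iff]
        intro w hw
        have h3 := hYN w hw
        rw [h] at h3
        have h4 : Y c w = 0 := h3
        have h5 := hYY c hcm w (hNW hw)
        rw [h4, map_zero] at h5
        exact h5.symm
      rw [← hsup, h, h2, bot_sup_eq]
    have hmem : ∀ {c'}, c' ∈ C → c' ∈ insert c C := fun h => Finset.mem_insert_of_mem h
    have hne : ∀ {c'}, c' ∈ C → c ≠ c' := fun h h' => hc (h' ▸ h)
    have h1 := ih P hP0
      (fun c' hc' w hw => by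
        have k := (hP w).1 hw
        refine (hP _).2 ⟨hX c' (hmem hc') w k.1, ?_⟩
        rw [(hcomm c hcm c' (hmem hc') (hne hc') w k.1).1, k.2])
      (fun c' hc' w hw => by
        have k := (hP w).1 hw
        refine (hP _).2 ⟨hY c' (hmem hc') w k.1, ?_⟩
        rw [(hcomm c hcm c' (hmem hc') (hne hc') w k.1).2, k.2])
      (fun c' hc' w hw => hXX c' (hmem hc') w (hPW hw))
      (fun c' hc' w hw => hYY c' (hmem hc') w (hPW hw))
      (fun c' hc' w hw => hXY c' (hmem hc') w (hPW hw))
      (fun c' hc' c'' hc'' h w hw => hcomm c' (hmem hc') c'' (hmem hc'') h w (hPW hw))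
    rw [Finset.card_insert_of_notMem hc, pow_succ]
    omega

end rep

section grp

variable {G : Type*} [Group G]

/-- A group generated by a central involution `c` and finitely many involutions whose commutators
are `1` or `c` is a finite `2`-group. -/
theorem heis_finite (c : G) (hc : c * c = 1) (s : Finset G) (hs : ∀ g ∈ s, g * g = 1)
    (hcs : ∀ g ∈ s, c * g = g * c) (hcomm : ∀ g ∈ s, ∀ h ∈ s, g * h = h * g ∨ g * h = c * (h * g)) :
    ((Subgroup.closure (insert c (s : Set G)) : Subgroup G) : Set G).Finite ∧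
      (∀ g ∈ Subgroup.closure (insert c (s : Set G)), g * g = 1 ∨ g * g = c) ∧
      ∀ g ∈ Subgroup.closure (insert c (s : Set G)), c * g = g * c := by
  classical
  have hc' : c⁻¹ = c := inv_eq_of_mul_eq_one_right hc
  have hcen : ∀ t : Finset G, (∀ g ∈ t, c * g = g * c) →
      ∀ g ∈ Subgroup.closure (insert c (t : Set G)), c * g = g * c := by
    intro t ht g hg
    have h1 : Subgroup.closure (insert c (t : Set G)) ≤ Subgroup.centralizer {c} := by
      rw [Subgroup.closure_le]
      intro x hx
      rw [SetLike.mem_coe, Subgroup.mem_centralizer_singleton_iff]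
      rcases hx with rfl | hx
      · rfl
      · exact (ht x hx).symm
    have h2 := h1 hg
    rw [Subgroup.mem_centralizer_singleton_iff] at h2
    exact h2.symm
  suffices h : ((Subgroup.closure (insert c (s : Set G)) : Subgroup G) : Set G).Finite ∧
      (∀ g ∈ Subgroup.closure (insert c (s : Set G)), g * g = 1 ∨ g * g = c) from
    ⟨h.1, h.2, hcen s hcs⟩
  induction s using Finset.induction_on with
  | empty =>
    have h1 : ∀ x ∈ Subgroup.closure (insert c ((∅ : Finset G) : Set G)), x = 1 ∨ x = c := by
      intro x hx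
      induction hx using Subgroup.closure_induction with
      | mem x hx =>
        rcases hx with rfl | hx
        · exact Or.inr rfl
        · simp at hx
      | one => exact Or.inl rfl
      | mul x y _ _ hx hy =>
        rcases hx with rfl | rfl <;> rcases hy with rfl | rfl
        · left; simp
        · right; simp
        · right; simp
        · left; exact hc
      | inv x _ hx =>
        rcases hx with rfl | rfl
        · left; simp
        · right; exact hc'
    refine ⟨?_, ?_⟩
    · refine Set.Finite.subset (Set.toFinite ({1, c} : Set G)) fun x hx => ?_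
      rcases h1 x hx with rfl | rfl <;> simp
    · intro x hx
      rcases h1 x hx with rfl | rfl
      · left; simp
      · left; exact hc
  | insert g s hg ih =>
    have hgm : g ∈ insert g s := Finset.mem_insert_self g s
    have ih := ih (fun x hx => hs x (Finset.mem_insert_of_mem hx))
      (fun x hx => hcs x (Finset.mem_insert_of_mem hx))
      (fun x hx y hy => hcomm x (Finset.mem_insert_of_mem hx) y (Finset.mem_insert_of_mem hy))
    set H := Subgroup.closure (insert c (s : Set G)) with hH
    have hcH : c ∈ H := Subgroup.subset_closure (Set.mem_insert c _)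
    have hcH' : ∀ x ∈ H, c * x = x * c := hcen s fun x hx => hcs x (Finset.mem_insert_of_mem hx)
    have hgg : g * g = 1 := hs g hgm
    have hgi : g⁻¹ = g := inv_eq_of_mul_eq_one_right hgg
    have hcg : c * g = g * c := hcs g hgm
    have conj : ∀ h ∈ H, h * g = g * h ∨ h * g = c * (g * h) := by
      intro h hh
      rw [hH] at hh
      induction hh using Subgroup.closure_induction with
      | mem x hx =>
        rcases hx with rfl | hx
        · exact Or.inl hcg
        · exact hcomm x (Finset.mem_insert_of_mem hx) g hgm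
      | one => left; simp
      | mul x y hx hy ihx ihy =>
        have k1 : x * c = c * x := (hcH' x hx).symm
        rcases ihy with e | e <;> rcases ihx with e' | e'
        · left; rw [mul_assoc, e, ← mul_assoc, e', mul_assoc]
        · right; rw [mul_assoc, e, ← mul_assoc, e', mul_assoc, mul_assoc]
        · right
          rw [mul_assoc, e, ← mul_assoc, k1, mul_assoc, ← mul_assoc x, e', mul_assoc]
        · left
          rw [mul_assoc, e, ← mul_assoc, k1, mul_assoc, ← mul_assoc x, e', mul_assoc, ← mul_assoc c c,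
            hc, one_mul, mul_assoc]
      | inv x hx ih =>
        rcases ih with e | e
        · left
          rw [inv_mul_eq_iff_eq_mul, ← mul_assoc, e, mul_assoc, mul_inv_cancel, mul_one]
        · right
          rw [inv_mul_eq_iff_eq_mul, ← mul_assoc, ← hcH' x hx, mul_assoc, ← mul_assoc x, e]
          rw [mul_assoc, mul_assoc, mul_inv_cancel, mul_one, ← mul_assoc, hc, one_mul]
    have key : ∀ x ∈ Subgroup.closure (insert c ((insert g s : Finset G) : Set G)),
        ∃ h ∈ H, x = h ∨ x = g * h := by
      intro x hx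
      have hmove : ∀ h ∈ H, ∃ h' ∈ H, h * g = g * h' := by
        intro h hh
        rcases conj h hh with e | e
        · exact ⟨h, hh, e⟩
        · exact ⟨c * h, H.mul_mem hcH hh, by rw [e, ← mul_assoc, hcg, mul_assoc]⟩
      induction hx using Subgroup.closure_induction with
      | mem x hx =>
        rcases hx with rfl | hx
        · exact ⟨x, hcH, Or.inl rfl⟩
        · rw [Finset.coe_insert] at hx
          rcases hx with rfl | hx
          · exact ⟨1, H.one_mem, Or.inr (mul_one _).symm⟩
          · exact ⟨x, Subgroup.subset_closure (Set.mem_insert_of_mem _ hx), Or.inl rfl⟩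
      | one => exact ⟨1, H.one_mem, Or.inl rfl⟩
      | mul x y _ _ hx hy =>
        obtain ⟨h, hh, hx⟩ := hx
        obtain ⟨k, hk, hy⟩ := hy
        obtain ⟨h', hh', e⟩ := hmove h hh
        rcases hx with rfl | rfl <;> rcases hy with rfl | rfl
        · exact ⟨_, H.mul_mem hh hk, Or.inl rfl⟩
        · exact ⟨_, H.mul_mem hh' hk, Or.inr (by rw [← mul_assoc, e, mul_assoc])⟩
        · exact ⟨_, H.mul_mem hh hk, Or.inr (by rw [mul_assoc])⟩
        · refine ⟨_, H.mul_mem hh' hk, Or.inl ?_⟩
          rw [mul_assoc, ← mul_assoc h, e, ← mul_assoc, ← mul_assoc, hgg, one_mul]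
      | inv x _ hx =>
        obtain ⟨h, hh, hx⟩ := hx
        rcases hx with rfl | rfl
        · exact ⟨_, H.inv_mem hh, Or.inl rfl⟩
        · obtain ⟨h', hh', e⟩ := hmove h⁻¹ (H.inv_mem hh)
          exact ⟨h', hh', Or.inr (by rw [mul_inv_rev, hgi, e])⟩
    refine ⟨?_, ?_⟩
    · refine Set.Finite.subset (ih.1.union (ih.1.image fun h => g * h)) fun x hx => ?_
      obtain ⟨h, hh, e | e⟩ := key x hx
      · left; rw [e]; exact hh
      · right; exact ⟨h, hh, e.symm⟩
    · intro x hx
      obtain ⟨h, hh, e | e⟩ := key x hx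
      · rw [e]; exact ih.2 h hh
      · have k1 := ih.2 h hh
        rw [e]
        rcases conj h hh with e1 | e1
        · have k2 : g * h * (g * h) = h * h := by
            rw [mul_assoc, ← mul_assoc h, e1, mul_assoc, ← mul_assoc g g, hgg, one_mul]
          rw [k2]; exact k1
        · have k2 : g * h * (g * h) = c * (h * h) := by
            rw [mul_assoc, ← mul_assoc h, e1, mul_assoc, mul_assoc, ← mul_assoc g c, ← hcg,
              mul_assoc, ← mul_assoc g g, hgg, one_mul]
          rw [k2]
          rcases k1 with k1 | k1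
          · right; rw [k1, mul_one]
          · left; rw [k1, hc]

end grp

end Pool.Agent.X183.ZM
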