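import Mathlib

/-!
# Linearisation of a finite group of diffeomorphisms at a fixed point
-/

set_option autoImplicit false

open scoped Manifold ContDiff Topology
open Filter Set

namespace Pool.Agent.X183.ZM

variable {d : ℕ} {M : Type} [TopologicalSpace M] [ChartedSpace (EuclideanSpace ℝ (Fin d)) M]

/-- a map in the chart at `y` -/
noncomputable def cr (y : M) (f : M → M) : EuclideanSpace ℝ (Fin d) → EuclideanSpace ℝ (Fin d) :=
  fun v => extChartAt (𝓡 d) y (f ((extChartAt (𝓡 d) y).symm v))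

/-- the point of the chart -/
noncomputable def pt (y : M) : EuclideanSpace ℝ (Fin d) := extChartAt (𝓡 d) y y

theorem symm_tendsto (y : M) : Tendsto (extChartAt (𝓡 d) y).symm (𝓝 (pt (d := d) y)) (𝓝 y) := by
  have h := continuousAt_extChartAt_symm (I := 𝓡 d) y
  have h1 : (extChartAt (𝓡 d) y).symm (pt (d := d) y) = y := extChartAt_to_inv y
  rw [ContinuousAt, show extChartAt (𝓡 d) y y = pt (d := d) y from rfl, h1] at h
  exact h

theorem cr_comp (y : M) (f g : M → M) (hg : ContinuousAt g y) (hgy : g y = y) :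
    cr (d := d) y (f ∘ g) =ᶠ[𝓝 (pt (d := d) y)] cr y f ∘ cr y g := by
  have h1 : Tendsto g (𝓝 y) (𝓝 y) := by
    have := hg.tendsto
    rwa [hgy] at this
  have h2 := (h1.comp (symm_tendsto (d := d) y)).eventually
    (extChartAt_source_mem_nhds (I := 𝓡 d) y)
  filter_upwards [h2] with v hv
  show extChartAt (𝓡 d) y (f (g _)) = extChartAt (𝓡 d) y (f ((extChartAt (𝓡 d) y).symm
    (extChartAt (𝓡 d) y (g _))))
  rw [(extChartAt (𝓡 d) y).left_inv
    (show g ((extChartAt (𝓡 d) y).symm v) ∈ (extChartAt (𝓡 d) y).source from hv)]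

theorem cr_id (y : M) : cr (d := d) y id =ᶠ[𝓝 (pt (d := d) y)] id := by
  filter_upwards [extChartAt_target_mem_nhds (I := 𝓡 d) y] with v hv
  exact (extChartAt (𝓡 d) y).right_inv hv

theorem cr_smooth (y : M) {f : M → M} (hf : ContMDiff (𝓡 d) (𝓡 d) 1 f) (hfy : f y = y) :
    ContDiffAt ℝ 1 (cr (d := d) y f) (pt y) := by
  have h := (contMDiffAt_iff.1 (hf y)).2
  rw [hfy, ModelWithCorners.range_eq_univ, contDiffWithinAt_univ] at h
  exact h

theorem cr_fixes (y : M) {f : M → M} (hfy : f y = y) : cr (d := d) y f (pt y) = pt y := by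
  show extChartAt (𝓡 d) y (f ((extChartAt (𝓡 d) y).symm (extChartAt (𝓡 d) y y))) = _
  rw [extChartAt_to_inv y, hfy]
  rfl

theorem fderiv_cr_comp (y : M) {f g : M → M} (hf : ContMDiff (𝓡 d) (𝓡 d) 1 f) (hfy : f y = y)
    (hg : ContMDiff (𝓡 d) (𝓡 d) 1 g) (hgy : g y = y) :
    fderiv ℝ (cr (d := d) y (f ∘ g)) (pt y) =
      (fderiv ℝ (cr (d := d) y f) (pt y)).comp (fderiv ℝ (cr (d := d) y g) (pt y)) := by
  rw [(cr_comp y f g (hg.continuous.continuousAt) hgy).fderiv_eq]
  have h1 := (cr_smooth y hf hfy).differentiableAt one_ne_zero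
  have h2 := (cr_smooth y hg hgy).differentiableAt one_ne_zero
  have h3 : DifferentiableAt ℝ (cr (d := d) y f) (cr y g (pt y)) := by
    rw [cr_fixes y hgy]; exact h1
  rw [fderiv_comp _ h3 h2, cr_fixes y hgy]

/-- powers -/
theorem pow_props (f : Equiv.Perm M) (hf : ContMDiff (𝓡 d) (𝓡 d) 1 f) (y : M) (hfy : f y = y)
    (hder : fderiv ℝ (cr (d := d) y f) (pt y) = ContinuousLinearMap.id ℝ _) (k : ℕ) :
    ContMDiff (𝓡 d) (𝓡 d) 1 (f ^ k : Equiv.Perm M) ∧ (f ^ k : Equiv.Perm M) y = y ∧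
      fderiv ℝ (cr (d := d) y (f ^ k : Equiv.Perm M)) (pt y) = ContinuousLinearMap.id ℝ _ := by
  induction k with
  | zero =>
    have e : ((f ^ 0 : Equiv.Perm M) : M → M) = id := by rw [pow_zero]; rfl
    rw [e]
    exact ⟨contMDiff_id, rfl, by rw [(cr_id y).fderiv_eq, fderiv_id]⟩
  | succ k ih =>
    have e : ((f ^ (k + 1) : Equiv.Perm M) : M → M) = (f ^ k : Equiv.Perm M) ∘ f := by
      rw [pow_succ]; rfl
    rw [e]
    refine ⟨ih.1.comp hf, ?_, ?_⟩
    · show (f ^ k : Equiv.Perm M) (f y) = y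
      rw [hfy, ih.2.1]
    · rw [fderiv_cr_comp y ih.1 ih.2.1 hf hfy, ih.2.2, hder]
      rfl

/-- **Local uniqueness.** -/
theorem loc_id (f : Equiv.Perm M) (hf : ContMDiff (𝓡 d) (𝓡 d) 1 f) {N : ℕ} (hN : 0 < N)
    (hfN : f ^ N = 1) (y : M) (hfy : f y = y)
    (hder : fderiv ℝ (cr (d := d) y f) (pt y) = ContinuousLinearMap.id ℝ _) :
    ∀ᶠ z in 𝓝 y, f z = z := by
  set G : ℕ → EuclideanSpace ℝ (Fin d) → EuclideanSpace ℝ (Fin d) :=
    fun k => cr y (f ^ k : Equiv.Perm M) with hG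
  have hstr : ∀ k, HasStrictFDerivAt (G k) (ContinuousLinearMap.id ℝ _) (pt y) := by
    intro k
    obtain ⟨h1, h2, h3⟩ := pow_props f hf y hfy hder k
    have h4 := (cr_smooth y h1 h2).hasStrictFDerivAt one_ne_zero
    rw [h3] at h4
    exact h4
  set φ : EuclideanSpace ℝ (Fin d) → EuclideanSpace ℝ (Fin d) :=
    fun v => (N : ℝ)⁻¹ • ∑ k ∈ Finset.range N, G k v with hφ
  have hφs : HasStrictFDerivAt φ
      ((ContinuousLinearEquiv.refl ℝ (EuclideanSpace ℝ (Fin d)) :
        EuclideanSpace ℝ (Fin d) →L[ℝ] EuclideanSpace ℝ (Fin d))) (pt y) := by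
    have h1 : HasStrictFDerivAt (fun v => ∑ k ∈ Finset.range N, G k v)
        (∑ _k ∈ Finset.range N, ContinuousLinearMap.id ℝ (EuclideanSpace ℝ (Fin d))) (pt y) :=
      HasStrictFDerivAt.fun_sum fun k _ => hstr k
    have h2 := h1.const_smul (N : ℝ)⁻¹
    have hN0 : (N : ℝ) ≠ 0 := Nat.cast_ne_zero.2 hN.ne'
    have e : (N : ℝ)⁻¹ • ∑ _k ∈ Finset.range N,
        ContinuousLinearMap.id ℝ (EuclideanSpace ℝ (Fin d)) =
        ((ContinuousLinearEquiv.refl ℝ (EuclideanSpace ℝ (Fin d)) :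
        EuclideanSpace ℝ (Fin d) →L[ℝ] EuclideanSpace ℝ (Fin d))) := by
      rw [Finset.sum_const, Finset.card_range, ← Nat.cast_smul_eq_nsmul ℝ N, smul_smul,
        inv_mul_cancel₀ hN0, one_smul]
      rfl
    rw [e] at h2
    exact h2
  have hGe : ∀ k, ∀ᶠ v in 𝓝 (pt (d := d) y), G (k + 1) v = G k (G 1 v) := by
    intro k
    have h1 := cr_comp (d := d) y (f ^ k : Equiv.Perm M) f (hf.continuous.continuousAt) hfy
    have e : ((f ^ (k + 1) : Equiv.Perm M) : M → M) = (f ^ k : Equiv.Perm M) ∘ f := by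
      rw [pow_succ]; rfl
    have e1 : ((f ^ 1 : Equiv.Perm M) : M → M) = f := by rw [pow_one]
    filter_upwards [h1] with v hv
    simp only [hG, e, e1]
    exact hv
  have hφG : ∀ᶠ v in 𝓝 (pt (d := d) y), φ (G 1 v) = φ v := by
    have h1 : ∀ᶠ v in 𝓝 (pt (d := d) y), ∀ k ∈ Finset.range N, G (k + 1) v = G k (G 1 v) :=
      (Finset.eventually_all _).2 fun k _ => hGe k
    filter_upwards [h1] with v hv
    simp only [hφ]
    congr 1
    rw [← Finset.sum_congr rfl hv]
    have h2 := Finset.sum_range_succ (fun k => G k v) N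
    have h3 := Finset.sum_range_succ' (fun k => G k v) N
    have h4 : G N v = G 0 v := by simp only [hG, hfN, pow_zero]
    rw [h2, h4] at h3
    exact (add_right_cancel h3).symm
  have hinv := hφs.eventually_left_inverse
  have hG1 : Tendsto (G 1) (𝓝 (pt y)) (𝓝 (pt y)) := by
    have h1 := (hstr 1).continuousAt
    rw [ContinuousAt, show G 1 (pt y) = pt y from by
      have h2 := (pow_props f hf y hfy hder 1).2.1
      exact cr_fixes y h2] at h1
    exact h1
  have hfix : ∀ᶠ v in 𝓝 (pt (d := d) y), G 1 v = v := by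
    filter_upwards [hinv, hG1.eventually hinv, hφG] with v h1 h2 h3
    exact h2.symm.trans ((congrArg _ h3).trans h1)
  have hcy : Tendsto (extChartAt (𝓡 d) y) (𝓝 y) (𝓝 (pt y)) := continuousAt_extChartAt y
  have hfc : Tendsto f (𝓝 y) (𝓝 y) := by
    have := hf.continuous.continuousAt (x := y)
    rwa [ContinuousAt, hfy] at this
  filter_upwards [hcy.eventually hfix, extChartAt_source_mem_nhds (I := 𝓡 d) y,
    hfc.eventually (extChartAt_source_mem_nhds (I := 𝓡 d) y)] with z h1 h2 h3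
  have e1 : ((f ^ 1 : Equiv.Perm M) : M → M) = f := by rw [pow_one]
  simp only [hG, e1, cr] at h1
  rw [(extChartAt (𝓡 d) y).left_inv h2] at h1
  exact (extChartAt (𝓡 d) y).injOn h3 h2 h1

/-- **Global uniqueness.** -/
theorem glob_id [T2Space M] [ConnectedSpace M] (f : Equiv.Perm M)
    (hf : ContMDiff (𝓡 d) (𝓡 d) 1 f) {N : ℕ} (hN : 0 < N) (hfN : f ^ N = 1) (x : M)
    (hfx : f x = x) (hder : fderiv ℝ (cr (d := d) x f) (pt x) = ContinuousLinearMap.id ℝ _) :
    f = 1 := by
  set S := interior {z : M | f z = z} with hS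
  have hxS : x ∈ S := mem_interior_iff_mem_nhds.2 (loc_id f hf hN hfN x hfx hder)
  have hclosed : IsClosed S := by
    rw [← closure_subset_iff_isClosed]
    intro y hy
    have hfix : IsClosed {z : M | f z = z} := isClosed_eq hf.continuous continuous_id
    have hfy : f y = y := by
      have h1 : y ∈ closure {z : M | f z = z} := closure_mono interior_subset hy
      rwa [hfix.closure_eq] at h1
    have hsm := cr_smooth (d := d) y hf hfy
    have hcont : ContinuousAt (fderiv ℝ (cr (d := d) y f)) (pt y) :=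
      (hsm.fderiv_right (m := 0) (by simp)).continuousAt
    have hfr : ∃ᶠ v in 𝓝 (pt (d := d) y), (extChartAt (𝓡 d) y).symm v ∈ S ∧
        v ∈ (extChartAt (𝓡 d) y).target := by
      have h1 : ∃ᶠ z in 𝓝 y, z ∈ S := mem_closure_iff_frequently.1 hy
      have h2 := h1.and_eventually (extChartAt_source_mem_nhds (I := 𝓡 d) y)
      have hcy : Tendsto (extChartAt (𝓡 d) y) (𝓝 y) (𝓝 (pt y)) := continuousAt_extChartAt y
      refine hcy.frequently (h2.mono ?_)
      rintro z ⟨hz1, hz2⟩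
      refine ⟨?_, (extChartAt (𝓡 d) y).map_source hz2⟩
      rw [(extChartAt (𝓡 d) y).left_inv hz2]
      exact hz1
    have hfr2 : ∃ᶠ v in 𝓝 (pt (d := d) y),
        fderiv ℝ (cr (d := d) y f) v ∈ ({ContinuousLinearMap.id ℝ _} : Set _) := by
      refine hfr.mono ?_
      rintro v ⟨hv1, hv2⟩
      have h1 : cr (d := d) y f =ᶠ[𝓝 v] id := by
        have h2 : ContinuousAt (extChartAt (𝓡 d) y).symm v :=
          continuousAt_extChartAt_symm'' hv2
        have h3 : ∀ᶠ v' in 𝓝 v, (extChartAt (𝓡 d) y).symm v' ∈ S :=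
          h2.eventually (isOpen_interior.mem_nhds hv1)
        have h4 : ∀ᶠ v' in 𝓝 v, v' ∈ (extChartAt (𝓡 d) y).target :=
          (isOpen_extChartAt_target y).mem_nhds hv2
        filter_upwards [h3, h4] with v' k1 k2
        have k3 : f ((extChartAt (𝓡 d) y).symm v') = (extChartAt (𝓡 d) y).symm v' :=
          interior_subset (s := {z : M | f z = z}) k1
        show extChartAt (𝓡 d) y (f ((extChartAt (𝓡 d) y).symm v')) = v'
        rw [k3, (extChartAt (𝓡 d) y).right_inv k2]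
      rw [mem_singleton_iff, h1.fderiv_eq, fderiv_id]
    have hder' : fderiv ℝ (cr (d := d) y f) (pt y) = ContinuousLinearMap.id ℝ _ :=
      isClosed_singleton.mem_of_frequently_of_tendsto hfr2 hcont
    exact mem_interior_iff_mem_nhds.2 (loc_id f hf hN hfN y hfy hder')
  have huniv : S = univ := IsClopen.eq_univ ⟨hclosed, isOpen_interior⟩ ⟨x, hxS⟩
  apply Equiv.ext
  intro z
  have h1 : z ∈ S := by rw [huniv]; exact mem_univ z
  exact interior_subset (s := {z : M | f z = z}) h1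

/-- **Linearisation.** -/
theorem lin [T2Space M] [ConnectedSpace M] {Q : Type} [Group Q] [Finite Q]
    (β : Q →* Equiv.Perm M) (hβ : ∀ g, ContMDiff (𝓡 d) (𝓡 d) 1 (β g)) (x : M)
    (hx : ∀ g, β g x = x) :
    ∃ L : Q →* Module.End ℝ (EuclideanSpace ℝ (Fin d)), ∀ g, L g = 1 → β g = 1 := by
  have h1 : fderiv ℝ (cr (d := d) x (β 1)) (pt x) = ContinuousLinearMap.id ℝ _ := by
    have e : ((β 1 : Equiv.Perm M) : M → M) = id := by rw [map_one]; rfl
    rw [e, (cr_id x).fderiv_eq, fderiv_id]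
  have hm : ∀ g h, fderiv ℝ (cr (d := d) x (β (g * h))) (pt x) =
      (fderiv ℝ (cr (d := d) x (β g)) (pt x)).comp (fderiv ℝ (cr (d := d) x (β h)) (pt x)) := by
    intro g h
    have e : ((β (g * h) : Equiv.Perm M) : M → M) = β g ∘ β h := by rw [map_mul]; rfl
    rw [e, fderiv_cr_comp x (hβ g) (hx g) (hβ h) (hx h)]
  refine ⟨{ toFun := fun g => (fderiv ℝ (cr (d := d) x (β g)) (pt x)).toLinearMap
            map_one' := by rw [h1]; rfl
            map_mul' := fun g h => by rw [hm]; rfl }, ?_⟩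
  intro g hg
  have h2 : fderiv ℝ (cr (d := d) x (β g)) (pt x) = ContinuousLinearMap.id ℝ _ :=
    ContinuousLinearMap.coe_injective hg
  refine glob_id (β g) (hβ g) (N := Nat.card Q) Nat.card_pos ?_ x (hx g) h2
  rw [← map_pow, pow_card_eq_one', map_one]

end Pool.Agent.X183.ZM
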