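import Pool.Agent.X183.ZM.Grp
import Pool.Agent.X183.ZM.Units
import Pool.Agent.X183.ZM.Lin

/-!
# Actions of `GE_n(R)` on manifolds on which finite `2`-groups have fixed points
-/

set_option autoImplicit false

open scoped Manifold ContDiff Topology
open Module

namespace Pool.Agent.X183.ZM

variable {n : ℕ} {R : Type} [Ring R] {d : ℕ} {M : Type} [TopologicalSpace M]
  [T2Space M] [ConnectedSpace M] [ChartedSpace (EuclideanSpace ℝ (Fin d)) M]

theorem El_mem {Γ : Subgroup (Matrix (Fin n) (Fin n) R)ˣ} (hΓ : GE n R ≤ Γ) (i j : Fin n)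
    (h : i ≠ j) (x : R) : El i j h x ∈ Γ :=
  hΓ (Subgroup.subset_closure (Or.inl ⟨i, j, h, x, rfl⟩))

theorem Dg_mem {Γ : Subgroup (Matrix (Fin n) (Fin n) R)ˣ} (hΓ : GE n R ≤ Γ) (u : Fin n → Rˣ) :
    Dg u ∈ Γ :=
  hΓ (Subgroup.subset_closure (Or.inr ⟨u, rfl⟩))

/-- the diagonal matrices in `Γ` -/
def dgΓ {Γ : Subgroup (Matrix (Fin n) (Fin n) R)ˣ} (hΓ : GE n R ≤ Γ) : (Fin n → Rˣ) →* Γ :=
  (DgHom n R).codRestrict Γ (Dg_mem hΓ)

/-- **First step**: the elementary matrices with even entries act trivially. -/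
theorem step_even [Finite Rˣ] (h4 : ∀ u : Rˣ, u ^ 4 = 1) {κ : ℕ} (hκ : Big κ R) (hn : 3 ≤ n)
    (hd : d < κ * (n - 1))
    {Γ : Subgroup (Matrix (Fin n) (Fin n) R)ˣ} (hΓ : GE n R ≤ Γ) (α : Γ →* Equiv.Perm M)
    (hα : ∀ g, ContMDiff (𝓡 d) (𝓡 d) 1 (α g)) (hM : TwoFixed α.range) (k l : Fin n) (hkl : k ≠ l) (x : R) :
    α ⟨El k l hkl (2 * x), El_mem hΓ _ _ _ _⟩ = 1 := by
  have hp : IsPGroup 2 (Fin n → Rˣ) := by
    intro g
    refine ⟨2, ?_⟩
    funext a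
    exact h4 (g a)
  obtain ⟨y, hy⟩ := hM (α.comp (dgΓ hΓ)).range
    (by rintro _ ⟨g, rfl⟩; exact ⟨_, rfl⟩)
    (Finite.of_surjective _ (α.comp (dgΓ hΓ)).rangeRestrict_surjective)
    (hp.of_surjective _ (α.comp (dgΓ hΓ)).rangeRestrict_surjective)
  obtain ⟨L, hL⟩ := lin (α.comp (dgΓ hΓ)) (fun g => hα _) y fun g => hy _ ⟨g, rfl⟩
  obtain ⟨S, ⟨a, b, ha, hb⟩, hS⟩ := exists_sign (n := n) hκ L
    (by rw [finrank_euclideanSpace_fin]; exact hd)
  have h1 : α ⟨Dg (sg S), Dg_mem hΓ _⟩ = 1 := hL _ hS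
  have hab : a ≠ b := by
    rintro rfl
    exact hb ha
  refine even_all (El_mem hΓ) α hn hab ?_ k l hkl x
  intro z
  have e := Dg_El (sg S) hab z
  have ea : (sg (R := R) S a : Rˣ) = 1 := if_pos ha
  have eb : (sg (R := R) S b : Rˣ) = -1 := if_neg hb
  rw [ea, eb, Units.val_one, one_mul, inv_neg, inv_one, Units.val_neg, Units.val_one,
    mul_neg, mul_one] at e
  have e2 : (⟨Dg (sg S), Dg_mem hΓ _⟩ : Γ) * ⟨El a b hab z, El_mem hΓ _ _ _ _⟩ =
      ⟨El a b hab (-z), El_mem hΓ _ _ _ _⟩ * ⟨Dg (sg S), Dg_mem hΓ _⟩ := Subtype.ext e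
  have e3 := congrArg α e2
  rw [map_mul, map_mul, h1, one_mul, mul_one] at e3
  have e4 : (⟨El a b hab (2 * z), El_mem hΓ _ _ _ _⟩ : Γ) =
      ⟨El a b hab z, El_mem hΓ _ _ _ _⟩ * ⟨El a b hab z, El_mem hΓ _ _ _ _⟩ := by
    apply Subtype.ext
    show El a b hab (2 * z) = El a b hab z * El a b hab z
    rw [← El_add, two_mul]
  have e5 : (⟨El a b hab z, El_mem hΓ _ _ _ _⟩ : Γ) * ⟨El a b hab (-z), El_mem hΓ _ _ _ _⟩ = 1 := by
    apply Subtype.ext
    show El a b hab z * El a b hab (-z) = 1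
    rw [← El_add, add_neg_cancel, El_zero]
  have e6 := congrArg α e5
  rw [map_mul, map_one, ← e3] at e6
  rw [e4, map_mul]
  exact e6

/-- **Second step.** -/
theorem step_all (hd : d < 2 ^ (n - 2))
    {Γ : Subgroup (Matrix (Fin n) (Fin n) R)ˣ} (hΓ : GE n R ≤ Γ) (α : Γ →* Equiv.Perm M)
    (hα : ∀ g, ContMDiff (𝓡 d) (𝓡 d) 1 (α g)) (hM : TwoFixed α.range)
    (heven : ∀ (k l : Fin n) (hkl : k ≠ l) (x : R),
      α ⟨El k l hkl (2 * x), El_mem hΓ _ _ _ _⟩ = 1) (p q : Fin n) (hpq : p ≠ q) (x : R) :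
    α ⟨El p q hpq x, El_mem hΓ _ _ _ _⟩ = 1 := by
  classical
  set A : ∀ (i j : Fin n), i ≠ j → R → Equiv.Perm M :=
    fun i j h z => α ⟨El i j h z, El_mem hΓ _ _ _ _⟩ with hA
  have hAA : ∀ i j h z, A i j h z * A i j h z = 1 := by
    intro i j h z
    rw [← heven i j h z]
    simp only [hA]
    rw [← map_mul]
    congr 1
    apply Subtype.ext
    show El i j h z * El i j h z = El i j h (2 * z)
    rw [← El_add, two_mul]
  have hAc : ∀ {i j k l : Fin n} (h : i ≠ j) (h' : k ≠ l) (_ : j ≠ k) (_ : l ≠ i) (y z : R),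
      A i j h y * A k l h' z = A k l h' z * A i j h y := by
    intro i j k l h h' h1 h2 y z
    simp only [hA]
    rw [← map_mul, ← map_mul]
    congr 1
    exact Subtype.ext (El_comm h h' h1 h2 y z)
  have hA3 : ∀ {i j k : Fin n} (h : i ≠ j) (h' : j ≠ k) (h'' : i ≠ k) (y z : R),
      A i j h y * A j k h' z = A i k h'' (y * z) * (A j k h' z * A i j h y) := by
    intro i j k h h' h'' y z
    simp only [hA]
    rw [← map_mul, ← map_mul, ← map_mul]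
    congr 1
    exact Subtype.ext (El_comm3 h h' h'' y z)
  set Z := A p q hpq x with hZ
  set X : Fin n → Equiv.Perm M := fun c => if h : p ≠ c then A p c h x else 1 with hX
  set Y : Fin n → Equiv.Perm M := fun c => if h : c ≠ q then A c q h 1 else 1 with hY
  set C : Finset (Fin n) := Finset.univ.filter fun c => p ≠ c ∧ c ≠ q with hC
  have hXe : ∀ c (h : p ≠ c), X c = A p c h x := fun c h => dif_pos h
  have hYe : ∀ c (h : c ≠ q), Y c = A c q h 1 := fun c h => dif_pos h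
  have hCm : ∀ c, c ∈ C ↔ p ≠ c ∧ c ≠ q := fun c => by simp [hC]
  have hCcard : n - 2 ≤ C.card := by
    have h1 : C = (Finset.univ.erase p).erase q := by
      ext c
      rw [hCm, Finset.mem_erase, Finset.mem_erase]
      simp only [Finset.mem_univ, and_true]
      exact ⟨fun h => ⟨h.2, h.1.symm⟩, fun h => ⟨h.2.symm, h.1⟩⟩
    rw [h1, Finset.card_erase_of_mem (by simp [hpq.symm]), Finset.card_erase_of_mem (by simp),
      Finset.card_univ, Fintype.card_fin]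
    omega
  have hZZ : Z * Z = 1 := hAA _ _ _ _
  have hXX : ∀ c ∈ C, X c * X c = 1 := by
    intro c hc
    rw [hXe c ((hCm c).1 hc).1]
    exact hAA _ _ _ _
  have hYY : ∀ c ∈ C, Y c * Y c = 1 := by
    intro c hc
    rw [hYe c ((hCm c).1 hc).2]
    exact hAA _ _ _ _
  have hZX : ∀ c ∈ C, Z * X c = X c * Z := by
    intro c hc
    rw [hXe c ((hCm c).1 hc).1]
    exact hAc hpq _ hpq.symm ((hCm c).1 hc).1.symm _ _
  have hZY : ∀ c ∈ C, Z * Y c = Y c * Z := by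
    intro c hc
    rw [hYe c ((hCm c).1 hc).2]
    exact hAc hpq _ ((hCm c).1 hc).2.symm hpq.symm _ _
  have hXXc : ∀ c ∈ C, ∀ c' ∈ C, X c * X c' = X c' * X c := by
    intro c hc c' hc'
    rw [hXe c ((hCm c).1 hc).1, hXe c' ((hCm c').1 hc').1]
    exact hAc _ _ ((hCm c).1 hc).1.symm ((hCm c').1 hc').1.symm _ _
  have hYYc : ∀ c ∈ C, ∀ c' ∈ C, Y c * Y c' = Y c' * Y c := by
    intro c hc c' hc'
    rw [hYe c ((hCm c).1 hc).2, hYe c' ((hCm c').1 hc').2]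
    exact hAc _ _ ((hCm c').1 hc').2.symm ((hCm c).1 hc).2.symm _ _
  have hXYc : ∀ c ∈ C, ∀ c' ∈ C, c ≠ c' → X c * Y c' = Y c' * X c := by
    intro c hc c' hc' hne
    rw [hXe c ((hCm c).1 hc).1, hYe c' ((hCm c').1 hc').2]
    exact hAc _ _ hne hpq.symm _ _
  have hXY : ∀ c ∈ C, X c * Y c = Z * (Y c * X c) := by
    intro c hc
    rw [hXe c ((hCm c).1 hc).1, hYe c ((hCm c).1 hc).2, hA3 _ _ hpq, mul_one]
  have hYX : ∀ c ∈ C, Y c * X c = Z * (X c * Y c) := by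
    intro c hc
    rw [hXY c hc, ← mul_assoc, hZZ, one_mul]
  set s : Finset (Equiv.Perm M) := C.image X ∪ C.image Y with hs
  have hsm : ∀ g ∈ s, (∃ c ∈ C, g = X c) ∨ ∃ c ∈ C, g = Y c := by
    intro g hg
    rw [hs, Finset.mem_union, Finset.mem_image, Finset.mem_image] at hg
    rcases hg with ⟨c, hc, rfl⟩ | ⟨c, hc, rfl⟩
    · exact Or.inl ⟨c, hc, rfl⟩
    · exact Or.inr ⟨c, hc, rfl⟩
  obtain ⟨hfin, hsq, hcen⟩ := heis_finite Z hZZ s
    (by
      intro g hg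
      rcases hsm g hg with ⟨c, hc, rfl⟩ | ⟨c, hc, rfl⟩
      · exact hXX c hc
      · exact hYY c hc)
    (by
      intro g hg
      rcases hsm g hg with ⟨c, hc, rfl⟩ | ⟨c, hc, rfl⟩
      · exact hZX c hc
      · exact hZY c hc)
    (by
      intro g hg h hh
      rcases hsm g hg with ⟨c, hc, rfl⟩ | ⟨c, hc, rfl⟩ <;>
      rcases hsm h hh with ⟨c', hc', rfl⟩ | ⟨c', hc', rfl⟩
      · exact Or.inl (hXXc c hc c' hc')
      · by_cases e : c = c'
        · subst e; exact Or.inr (hXY c hc)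
        · exact Or.inl (hXYc c hc c' hc' e)
      · by_cases e : c = c'
        · subst e; exact Or.inr (hYX c hc)
        · exact Or.inl (hXYc c' hc' c hc (Ne.symm e)).symm
      · exact Or.inl (hYYc c hc c' hc'))
  set Q := Subgroup.closure (insert Z (s : Set (Equiv.Perm M))) with hQ
  have hZQ : Z ∈ Q := Subgroup.subset_closure (Set.mem_insert _ _)
  have hXQ : ∀ c ∈ C, X c ∈ Q := fun c hc => Subgroup.subset_closure
    (Set.mem_insert_of_mem _ (by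
      rw [hs]; exact Finset.mem_coe.2 (Finset.mem_union_left _ (Finset.mem_image_of_mem _ hc))))
  have hYQ : ∀ c ∈ C, Y c ∈ Q := fun c hc => Subgroup.subset_closure
    (Set.mem_insert_of_mem _ (by
      rw [hs]; exact Finset.mem_coe.2 (Finset.mem_union_right _ (Finset.mem_image_of_mem _ hc))))
  have hfinQ : Finite Q := hfin
  have hQr : Q ≤ α.range := by
    rw [hQ, Subgroup.closure_le]
    intro g hg
    rcases hg with rfl | hg
    · exact ⟨_, rfl⟩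
    · rcases hsm g hg with ⟨c, hc, rfl⟩ | ⟨c, hc, rfl⟩
      · rw [hXe c ((hCm c).1 hc).1]; exact ⟨_, rfl⟩
      · rw [hYe c ((hCm c).1 hc).2]; exact ⟨_, rfl⟩
  have hp : IsPGroup 2 Q := by
    intro g
    refine ⟨2, ?_⟩
    apply Subtype.ext
    have e : ((g ^ 2 ^ 2 : Q) : Equiv.Perm M) = ((g : Equiv.Perm M) * g) * (g * g) := by
      rw [Subgroup.coe_pow]
      show (g : Equiv.Perm M) ^ 4 = _
      rw [pow_succ, pow_succ, pow_two, mul_assoc, mul_assoc]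
    rw [e]
    rcases hsq g g.2 with h1 | h1 <;> rw [h1]
    · exact mul_one 1
    · exact hZZ
  have hsmooth : ∀ g : Q, ContMDiff (𝓡 d) (𝓡 d) 1 (Q.subtype g) := by
    intro g
    obtain ⟨γ, hγ⟩ := hQr g.2
    show ContMDiff (𝓡 d) (𝓡 d) 1 (g : Equiv.Perm M)
    rw [← hγ]
    exact hα γ
  obtain ⟨y, hy⟩ := hM Q hQr hfinQ hp
  obtain ⟨L, hL⟩ := lin Q.subtype hsmooth y fun g => hy _ g.2
  by_contra hne
  set Lq : Equiv.Perm M → Module.End ℝ (EuclideanSpace ℝ (Fin d)) :=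
    fun g => if h : g ∈ Q then L ⟨g, h⟩ else 0 with hLq
  have hLe : ∀ g (h : g ∈ Q), Lq g = L ⟨g, h⟩ := fun g h => dif_pos h
  have hmul : ∀ g ∈ Q, ∀ h ∈ Q, ∀ w, Lq g (Lq h w) = Lq (g * h) w := by
    intro g hg h hh w
    rw [hLe g hg, hLe h hh, hLe _ (Q.mul_mem hg hh), ← Module.End.mul_apply, ← map_mul]
    rfl
  have hone : ∀ w, Lq 1 w = w := by
    intro w
    rw [hLe 1 Q.one_mem]
    have : (⟨1, Q.one_mem⟩ : Q) = 1 := rfl
    rw [this, map_one]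
    rfl
  have hLZ : Lq Z ≠ 1 := by
    intro h
    rw [hLe Z hZQ] at h
    exact hne (hL ⟨Z, hZQ⟩ h)
  set W : Submodule ℝ (EuclideanSpace ℝ (Fin d)) := LinearMap.ker (Lq Z + 1) with hW
  have hWm : ∀ w, w ∈ W ↔ Lq Z w = -w := by
    intro w
    rw [hW, LinearMap.mem_ker]
    show Lq Z w + w = 0 ↔ _
    exact add_eq_zero_iff_eq_neg
  have hWne : W ≠ ⊥ := by
    intro h
    apply hLZ
    apply LinearMap.ext
    intro v
    have h1 : Lq Z v - v ∈ W := by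
      rw [hWm, map_sub, hmul Z hZQ Z hZQ, hZZ, hone]
      abel
    rw [h, Submodule.mem_bot] at h1
    exact sub_eq_zero.1 h1
  have hWi : ∀ g ∈ Q, Z * g = g * Z → ∀ w ∈ W, Lq g w ∈ W := by
    intro g hg hc w hw
    rw [hWm, hmul Z hZQ g hg, hc, ← hmul g hg Z hZQ, (hWm w).1 hw, map_neg]
  have hdim := heis_dim (fun c => Lq (X c)) (fun c => Lq (Y c)) C W hWne
    (fun c hc => hWi _ (hXQ c hc) (hZX c hc)) (fun c hc => hWi _ (hYQ c hc) (hZY c hc))
    (fun c hc w _ => by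
      show Lq (X c) (Lq (X c) w) = w
      rw [hmul _ (hXQ c hc) _ (hXQ c hc), hXX c hc, hone])
    (fun c hc w _ => by
      show Lq (Y c) (Lq (Y c) w) = w
      rw [hmul _ (hYQ c hc) _ (hYQ c hc), hYY c hc, hone])
    (fun c hc w hw => by
      show Lq (X c) (Lq (Y c) w) = -Lq (Y c) (Lq (X c) w)
      rw [hmul _ (hXQ c hc) _ (hYQ c hc), hXY c hc,
        ← hmul _ hZQ _ (Q.mul_mem (hYQ c hc) (hXQ c hc)), ← hmul _ (hYQ c hc) _ (hXQ c hc)]
      exact (hWm _).1 (hWi _ (hYQ c hc) (hZY c hc) _ (hWi _ (hXQ c hc) (hZX c hc) w hw)))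
    (fun c hc c' hc' hcc w _ => by
      constructor
      · show Lq (X c) (Lq (X c') w) = Lq (X c') (Lq (X c) w)
        rw [hmul _ (hXQ c hc) _ (hXQ c' hc'), hmul _ (hXQ c' hc') _ (hXQ c hc),
          hXXc c hc c' hc']
      · show Lq (X c) (Lq (Y c') w) = Lq (Y c') (Lq (X c) w)
        rw [hmul _ (hXQ c hc) _ (hYQ c' hc'), hmul _ (hYQ c' hc') _ (hXQ c hc),
          hXYc c hc c' hc' hcc])
  have h1 := Submodule.finrank_le W
  rw [finrank_euclideanSpace_fin] at h1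
  have h2 : 2 ^ (n - 2) ≤ 2 ^ C.card := Nat.pow_le_pow_right (by norm_num) hCcard
  omega

/-- **Finite image.** -/
theorem finite_image [Finite Rˣ] {Γ : Subgroup (Matrix (Fin n) (Fin n) R)ˣ} (hΓ : GE n R ≤ Γ)
    {G : Type*} [Group G] (α : Γ →* G)
    (h : ∀ (k l : Fin n) (hkl : k ≠ l) (x : R), α ⟨El k l hkl x, El_mem hΓ _ _ _ _⟩ = 1)
    (hind : (GE n R).relIndex Γ ≠ 0) : (Set.range α).Finite := by
  have h1 : ∀ g (hg : g ∈ GE n R), α ⟨g, hΓ hg⟩ ∈ (α.comp (dgΓ hΓ)).range := by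
    intro g hg
    unfold GE at hg
    induction hg using Subgroup.closure_induction with
    | mem g hg =>
      rcases hg with ⟨i, j, hij, x, rfl⟩ | ⟨u, rfl⟩
      · rw [h]; exact Subgroup.one_mem _
      · exact ⟨u, rfl⟩
    | one =>
      have e : (⟨1, hΓ (Subgroup.one_mem _)⟩ : Γ) = 1 := rfl
      rw [e, map_one]
      exact Subgroup.one_mem _
    | mul x y hx hy ihx ihy =>
      have e : (⟨x * y, hΓ (Subgroup.mul_mem _ hx hy)⟩ : Γ) = ⟨x, hΓ hx⟩ * ⟨y, hΓ hy⟩ := rfl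
      rw [e, map_mul]
      exact Subgroup.mul_mem _ ihx ihy
    | inv x hx ih =>
      have e : (⟨x⁻¹, hΓ (Subgroup.inv_mem _ hx)⟩ : Γ) = ⟨x, hΓ hx⟩⁻¹ := rfl
      rw [e, map_inv]
      exact Subgroup.inv_mem _ ih
  set H := (GE n R).subgroupOf Γ with hH
  have hfi : Finite (Γ ⧸ H) := Nat.finite_of_card_ne_zero hind
  have hfr : ((α.comp (dgΓ hΓ)).range : Set G).Finite := by
    rw [MonoidHom.coe_range]
    exact Set.finite_range _
  refine Set.Finite.subset (Set.finite_iUnion fun q : Γ ⧸ H =>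
    hfr.image fun t => α q.out * t) ?_
  rintro _ ⟨γ, rfl⟩
  rw [Set.mem_iUnion]
  refine ⟨(γ : Γ ⧸ H), α ((γ : Γ ⧸ H).out⁻¹ * γ), ?_, ?_⟩
  · have h2 : ((γ : Γ ⧸ H).out)⁻¹ * γ ∈ H := QuotientGroup.eq.1 (Quotient.out_eq' _)
    exact h1 _ h2
  · show α _ * α _ = α γ
    rw [← map_mul, mul_inv_cancel_left]

/-- **Main theorem.** -/
theorem main_ring [Finite Rˣ] (h4 : ∀ u : Rˣ, u ^ 4 = 1) {κ : ℕ} (hκ : Big κ R) (hn : 3 ≤ n)
    (hd : d < κ * (n - 1)) (hd2 : d < 2 ^ (n - 2))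
    {Γ : Subgroup (Matrix (Fin n) (Fin n) R)ˣ} (hΓ : GE n R ≤ Γ) (α : Γ →* Equiv.Perm M)
    (hα : ∀ g, ContMDiff (𝓡 d) (𝓡 d) 1 (α g)) (hM : TwoFixed α.range) :
    (∀ (i j : Fin n) (h : i ≠ j) (x : R) (hx : El i j h x ∈ Γ), α ⟨El i j h x, hx⟩ = 1) ∧
      ((GE n R).relIndex Γ ≠ 0 → (Set.range α).Finite) := by
  have h1 := step_all hd2 hΓ α hα hM (step_even h4 hκ hn hd hΓ α hα hM)
  exact ⟨fun i j h x _ => h1 i j h x, finite_image hΓ α h1⟩

end Pool.Agent.X183.ZM
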